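import Pool.Agent.Q253.Cov.DensM

/-!
# Classes with too few primes: the class divided by a prime of a thin set has enough of them

Let `θ < 4/9`.  There are `C, δ, ρ > 0` and ONE set `Q` of primes with at most `C log x` elements up to `x` such that for all large `X`, all
moduli `m ≤ X ^ θ` and all `a` prime to `m`: `ψ(X; m, a) ≥ δ X / φ(m)`, or the primes `q ∈ [X^(1/9), X^(1/2)]` with
`ψ(X/q; m, a/q) ≥ δ (X/q) / φ(m)` have harmonic measure at least `ρ`, and one of them is in `Q`.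

Libraries (starting files): weighted sieve `Y882.KW.core4`, `Y151.HS.flc` (upper bound sieve), `W378.DC.MP` (Mertens).
-/

set_option autoImplicit false

namespace Pool.Agent.Results.MP_9cfc0a_nt.DeficientClasses

open Finset Filter
open Pool.Agent.Q253.Cov (lin_thin Tms RichL dens_phi)
open Pool.Agent.Q253.P3 (Zl)
open Pool.Agent.Y843.HS (VV)

/-- the Chebyshev function `ψ(x; m, a)` of the class of `a` modulo `m` -/
noncomputable def psi (x : ℝ) (m a : ℕ) : ℝ := ∑ n ∈ (Icc 1 ⌊x⌋₊).filter (fun n => n ≡ a [MOD m]), ArithmeticFunction.vonMangoldt n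

/-- a set of primes `≤ x` of the class with logarithms at least `L` bounds `ψ` from below -/
lemma psi_ge (x : ℝ) (m a : ℕ) (S : Finset ℕ) (L : ℝ)
    (hS : ∀ p ∈ S, p.Prime ∧ (p : ℝ) ≤ x ∧ p ≡ a [MOD m] ∧ L ≤ Real.log p) : L * S.card ≤ psi x m a := by
  unfold psi
  calc L * S.card = ∑ p ∈ S, L := by rw [sum_const, nsmul_eq_mul, mul_comm]
    _ ≤ ∑ p ∈ S, ArithmeticFunction.vonMangoldt p := by
        apply sum_le_sum
        intro p hp
        obtain ⟨h1, -, -, h4⟩ := hS p hp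
        rw [ArithmeticFunction.vonMangoldt_apply_prime h1]
        exact h4
    _ ≤ _ := by
        apply sum_le_sum_of_subset_of_nonneg
        · intro p hp
          obtain ⟨h1, h2, h3, -⟩ := hS p hp
          rw [mem_filter, mem_Icc]
          exact ⟨⟨h1.pos, Nat.le_floor h2⟩, h3⟩
        · intro n _ _
          exact ArithmeticFunction.vonMangoldt_nonneg

/-- **Classes with too few primes.** Let `θ < 4/9`. There are `C, δ, ρ > 0` and a set `Q` of primes with at most `C log x` elements up to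
`x` (`x ≥ 2`) such that for all large `X`, all `m ≥ 1` with `m ≤ X ^ θ` and all `a` prime to `m`: `ψ(X; m, a) ≥ δ X / φ(m)`, or there is a
finite set `T` of primes `q`, `X^(1/9) ≤ q ≤ X^(1/2)`, with `∑ 1/q ≥ ρ` and with an element in `Q`, such that for each `q ∈ T` there is a
`b` with `q b ≡ a` modulo `m` and `ψ(X/q; m, b) ≥ δ (X/q) / φ(m)`. -/
theorem result : ∀ θ : ℝ, θ < 4 / 9 → ∃ C δ ρ : ℝ, 0 < C ∧ 0 < δ ∧ 0 < ρ ∧ ∃ Q : Set ℕ, (∀ q ∈ Q, q.Prime) ∧
    (∀ x : ℕ, 2 ≤ x → {q ∈ Q | q ≤ x}.Finite ∧ ({q ∈ Q | q ≤ x}.ncard : ℝ) ≤ C * Real.log x) ∧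
    ∃ X₀ : ℕ, ∀ X : ℕ, X₀ ≤ X → ∀ m a : ℕ, 1 ≤ m → (m : ℝ) ≤ (X : ℝ) ^ θ → Nat.Coprime a m →
      δ * X / m.totient ≤ psi X m a ∨
      ∃ T : Finset ℕ, (∀ q ∈ T, q.Prime ∧ (X : ℝ) ^ (1 / 9 : ℝ) ≤ q ∧ (q : ℝ) ≤ (X : ℝ) ^ (1 / 2 : ℝ) ∧
          ∃ b : ℕ, q * b ≡ a [MOD m] ∧ δ * (X / q) / m.totient ≤ psi (X / q) m b) ∧
        ρ ≤ ∑ q ∈ T, (1 : ℝ) / q ∧ ∃ q ∈ T, q ∈ Q := by
  classical
  intro θ₀ hθ₀
  -- we may assume `0 < θ`
  obtain ⟨θ, hθ⟩ : ∃ θ, θ = max θ₀ (1 / 9) := ⟨_, rfl⟩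
  have hθ1 : θ < 4 / 9 := by rw [hθ]; exact max_lt hθ₀ (by norm_num)
  have hθ2 : 0 < θ := by rw [hθ]; exact lt_of_lt_of_le (by norm_num) (le_max_right _ _)
  have hθ3 : θ₀ ≤ θ := by rw [hθ]; exact le_max_left _ _
  obtain ⟨h, hh⟩ : ∃ h, h = (5 / 9 + (1 - θ)) / 2 := ⟨_, rfl⟩
  have hh1 : 5 / 9 < h := by rw [hh]; linarith
  have hh2 : h < 1 - θ := by rw [hh]; linarith
  have hh3 : h ≤ 1 := by linarith
  obtain ⟨C, hC, δ, hδ, ρ, hρ, Q, hQ, hQc, X₀, H1⟩ := lin_thin 1 h hh3 le_rfl (by push_cast; linarith) (1 / 100) (by norm_num)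
  obtain ⟨c, hc, X₁, H2⟩ := dens_phi h (by linarith)
  have ev1 : ∀ᶠ X : ℕ in atTop, (2 : ℝ) ≤ (X : ℝ) ^ (1 - θ - h) :=
    ((tendsto_rpow_atTop (by linarith)).comp tendsto_natCast_atTop_atTop).eventually_ge_atTop _
  have ev2 : ∀ᶠ X : ℕ in atTop, (4 : ℝ) ≤ (X : ℝ) ^ (1 - θ) :=
    ((tendsto_rpow_atTop (by linarith)).comp tendsto_natCast_atTop_atTop).eventually_ge_atTop _
  have ev3 : ∀ᶠ X : ℕ in atTop, 2 / (δ * c) * Real.log X ≤ (X : ℝ) ^ (h - 1 / 9) := by
    have h1 := (isLittleO_log_rpow_atTop (show 0 < h - 1 / 9 by linarith)).def (show (0 : ℝ) < δ * c / 2 by positivity)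
    have h2 := tendsto_natCast_atTop_atTop.eventually h1
    filter_upwards [h2, eventually_ge_atTop 1] with X hX hX1
    rw [Real.norm_of_nonneg (Real.log_nonneg (by exact_mod_cast hX1)), Real.norm_of_nonneg (by positivity)] at hX
    have h3 : 2 / (δ * c) * Real.log X ≤ 2 / (δ * c) * (δ * c / 2 * (X : ℝ) ^ (h - 1 / 9)) :=
      mul_le_mul_of_nonneg_left hX (by positivity)
    refine h3.trans (le_of_eq ?_)
    field_simp
  obtain ⟨X₂, hX₂⟩ := eventually_atTop.1 (ev1.and (ev2.and ev3))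
  refine ⟨C, δ * c / 36, ρ, hC, by positivity, hρ, Q, hQ, hQc, max (max X₀ X₁) (max X₂ 2), ?_⟩
  intro X hX m a hm hmX ham
  have x0 : X₀ ≤ X := ((le_max_left _ _).trans (le_max_left _ _)).trans hX
  have x1 : X₁ ≤ X := ((le_max_right _ _).trans (le_max_left _ _)).trans hX
  obtain ⟨e1, e2, e3⟩ := hX₂ X (((le_max_left _ _).trans (le_max_right _ _)).trans hX)
  have x2 : 2 ≤ X := ((le_max_right _ _).trans (le_max_right _ _)).trans hX
  have hX0 : (0 : ℝ) < X := by exact_mod_cast (by omega : 0 < X)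
  have hX1 : (1 : ℝ) ≤ X := by exact_mod_cast (by omega : 1 ≤ X)
  have hlX : 0 < Real.log X := Real.log_pos (by exact_mod_cast (by omega : 1 < X))
  have hm0 : (0 : ℝ) < m := by exact_mod_cast hm
  have hmX' : (m : ℝ) ≤ (X : ℝ) ^ θ := hmX.trans (Real.rpow_le_rpow_of_exponent_le hX1 hθ3)
  have hXm : (X : ℝ) ^ (1 - θ) * m ≤ X := by
    calc (X : ℝ) ^ (1 - θ) * m ≤ (X : ℝ) ^ (1 - θ) * (X : ℝ) ^ θ := mul_le_mul_of_nonneg_left hmX' (by positivity)
      _ = X := by rw [← Real.rpow_add hX0]; norm_num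
  have h4m : 4 * m ≤ X := by
    have : (4 : ℝ) * m ≤ X := (mul_le_mul_of_nonneg_right e2 hm0.le).trans hXm
    exact_mod_cast this
  obtain ⟨a', ha'⟩ : ∃ a', a' = a % m := ⟨_, rfl⟩
  have ha'm : a' < m := by rw [ha']; exact Nat.mod_lt _ hm
  have haa : a' ≡ a [MOD m] := by rw [ha']; exact Nat.mod_modEq _ _
  have ham' : Nat.Coprime a' m := by
    have h1 : Nat.gcd a' m = Nat.gcd a m := Nat.ModEq.gcd_eq haa
    unfold Nat.Coprime
    rw [h1]
    exact ham
  obtain ⟨H, hH⟩ : ∃ H, H = (X - a') / m := ⟨_, rfl⟩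
  have hH1 : m * H ≤ X - a' := by rw [hH]; exact Nat.mul_div_le _ _
  have hH2 : X - a' < m * (H + 1) := by rw [hH]; exact Nat.lt_mul_div_succ _ hm
  have hmH : m * (0 + H) + a' ≤ X := by rw [zero_add]; omega
  have hH3 : X < m * H + 2 * m := by
    have : m * (H + 1) = m * H + m := by ring
    omega
  have hH3r : (X : ℝ) < m * H + 2 * m := by exact_mod_cast hH3
  have h4mr : 4 * (m : ℝ) ≤ X := by exact_mod_cast h4m
  have hHlow : (X : ℝ) / 2 ≤ m * H := by linarith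
  have hHX : H ≤ X := by
    have : H ≤ m * H := Nat.le_mul_of_pos_left _ hm
    omega
  have hHh : (X : ℝ) ^ h ≤ H := by
    have h1 : (X : ℝ) ^ h * 2 ≤ (X : ℝ) ^ (1 - θ) := by
      have : (X : ℝ) ^ (1 - θ) = (X : ℝ) ^ h * (X : ℝ) ^ (1 - θ - h) := by
        rw [← Real.rpow_add hX0]
        ring_nf
      rw [this]
      exact mul_le_mul_of_nonneg_left e1 (by positivity)
    have h2 : (X : ℝ) ^ h * (2 * m) ≤ X := by
      calc (X : ℝ) ^ h * (2 * m) = (X : ℝ) ^ h * 2 * m := by ring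
        _ ≤ (X : ℝ) ^ (1 - θ) * m := mul_le_mul_of_nonneg_right h1 hm0.le
        _ ≤ X := hXm
    have h3 : (X : ℝ) ^ h * m ≤ H * m := by linarith
    exact le_of_mul_le_mul_right h3 hm0
  have hmX2 : m ≤ X := by omega
  have hφ0 : (0 : ℝ) < m.totient := by exact_mod_cast Nat.totient_pos.2 hm
  have hφm : (m.totient : ℝ) ≤ m := by exact_mod_cast Nat.totient_le m
  have hd := H2 X x1 m a' H hm hmX2 ham' hHh hHX
  obtain ⟨N, hN⟩ : ∃ N : ℝ, N = H * VV (Zl m a') 0 H := ⟨_, rfl⟩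
  have hNlow : c / 2 * X / m.totient / Real.log X ≤ N := by
    rw [hN]
    calc c / 2 * X / m.totient / Real.log X = (X / 2) * (c / m.totient / Real.log X) := by ring
      _ ≤ (m * H) * (c / m.totient / Real.log X) := mul_le_mul_of_nonneg_right hHlow (by positivity)
      _ = H * (c * (m / m.totient) / Real.log X) := by ring
      _ ≤ _ := mul_le_mul_of_nonneg_left hd (Nat.cast_nonneg _)
  have hN0 : 0 < N := lt_of_lt_of_le (by positivity) hNlow
  have hNh : c * (X : ℝ) ^ h / Real.log X ≤ N := by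
    rw [hN]
    have h1 : 1 ≤ (m : ℝ) / m.totient := by
      rw [le_div_iff₀ hφ0]
      linarith
    calc c * (X : ℝ) ^ h / Real.log X = (X : ℝ) ^ h * (c * 1 / Real.log X) := by ring
      _ ≤ H * (c * (m / m.totient) / Real.log X) := by gcongr
      _ ≤ _ := mul_le_mul_of_nonneg_left hd (Nat.cast_nonneg _)
  rcases H1 X x0 m a' 0 H hm ham' hmH hHh with k1 | k1 | ⟨k1, k2⟩
  · -- many primes
    left
    rw [← hN] at k1
    obtain ⟨W, hW⟩ : ∃ W, W = (Ioc 0 (0 + H)).filter (fun j => (m * j + a').Prime) := ⟨_, rfl⟩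
    rw [← hW] at k1
    have hinj : Set.InjOn (fun j => m * j + a') (W : Set ℕ) := by
      intro i _ j _ hij
      simp only [Nat.add_right_cancel_iff] at hij
      exact Nat.eq_of_mul_eq_mul_left hm hij
    obtain ⟨S, hS⟩ : ∃ S : Finset ℕ, S = (W.image (fun j => m * j + a')).filter (fun p : ℕ => (X : ℝ) ^ (1 / 9 : ℝ) ≤ p) := ⟨_, rfl⟩
    have hc1 : (W.card : ℝ) ≤ S.card + (X : ℝ) ^ (1 / 9 : ℝ) := by
      rw [← card_image_of_injOn hinj]
      rw [← card_filter_add_card_filter_not (s := W.image (fun j => m * j + a')) (fun p : ℕ => (X : ℝ) ^ (1 / 9 : ℝ) ≤ p), ← hS]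
      push_cast
      gcongr
      have h1 : (W.image (fun j => m * j + a')).filter (fun p : ℕ => ¬ (X : ℝ) ^ (1 / 9 : ℝ) ≤ p) ⊆ Icc 1 ⌊(X : ℝ) ^ (1 / 9 : ℝ)⌋₊ := by
        intro p hp
        rw [mem_filter, mem_image] at hp
        obtain ⟨⟨j, hj, rfl⟩, hp2⟩ := hp
        rw [hW, mem_filter] at hj
        push Not at hp2
        rw [mem_Icc]
        exact ⟨hj.2.pos, Nat.le_floor hp2.le⟩
      have h2 := card_le_card h1
      rw [Nat.card_Icc, Nat.add_sub_cancel] at h2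
      exact (Nat.cast_le.2 h2).trans (Nat.floor_le (by positivity))
    have hsmall : (X : ℝ) ^ (1 / 9 : ℝ) ≤ δ * N / 2 := by
      have h1 : (X : ℝ) ^ (1 / 9 : ℝ) * (X : ℝ) ^ (h - 1 / 9) = (X : ℝ) ^ h := by
        rw [← Real.rpow_add hX0]
        ring_nf
      have h2 : (X : ℝ) ^ (1 / 9 : ℝ) * (2 / (δ * c) * Real.log X) ≤ (X : ℝ) ^ h := by
        rw [← h1]
        exact mul_le_mul_of_nonneg_left e3 (by positivity)
      have h3 : (X : ℝ) ^ (1 / 9 : ℝ) ≤ δ / 2 * (c * (X : ℝ) ^ h / Real.log X) := by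
        calc (X : ℝ) ^ (1 / 9 : ℝ) = δ / 2 * (c * ((X : ℝ) ^ (1 / 9 : ℝ) * (2 / (δ * c) * Real.log X)) / Real.log X) := by
              field_simp
          _ ≤ _ := by gcongr
      have h4 : δ / 2 * (c * (X : ℝ) ^ h / Real.log X) ≤ δ / 2 * N := mul_le_mul_of_nonneg_left hNh (by positivity)
      linarith
    have hSc : δ * N / 2 ≤ S.card := by linarith
    have hps := psi_ge X m a S (1 / 9 * Real.log X) (by
      intro p hp
      rw [hS, mem_filter, mem_image] at hp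
      obtain ⟨⟨j, hj, rfl⟩, hp2⟩ := hp
      rw [hW, mem_filter, mem_Ioc] at hj
      refine ⟨hj.2, ?_, ?_, ?_⟩
      · have h1 : m * j ≤ m * (0 + H) := Nat.mul_le_mul_left _ hj.1.2
        exact_mod_cast (by omega : m * j + a' ≤ X)
      · exact ((Nat.modEq_iff_dvd' (by omega)).2 (by simp)).symm.trans haa
      · rw [← Real.log_rpow hX0]
        exact Real.log_le_log (by positivity) hp2)
    refine le_trans ?_ hps
    calc δ * c / 36 * X / m.totient = 1 / 9 * Real.log X * (δ * (c / 2 * X / m.totient / Real.log X) / 2) := by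
          field_simp
          norm_num
      _ ≤ 1 / 9 * Real.log X * (δ * N / 2) := by gcongr
      _ ≤ _ := mul_le_mul_of_nonneg_left hSc (by positivity)
  · -- impossible
    exfalso
    rw [← hN] at k1
    have h1 : (0 : ℝ) < ((((Ioc 0 (0 + H)).filter (fun j => 2 ≤ m * j + a' ∧ ¬ (m * j + a').Prime ∧
          (m * j + a').primeFactorsList.length ≤ 1 + 1 ∧
          ∀ p : ℕ, p.Prime → p ∣ m * j + a' → H * (X : ℝ) ^ (-(1 / 100 : ℝ)) < p)).card : ℕ) : ℝ) := lt_of_lt_of_le (by positivity) k1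
    have h2 := Nat.cast_pos.1 h1
    obtain ⟨j, hj⟩ := card_pos.1 h2
    rw [mem_filter, mem_Ioc] at hj
    obtain ⟨⟨j1, j2⟩, j3, j4, -, j6⟩ := hj
    obtain ⟨n, hn⟩ : ∃ n, n = m * j + a' := ⟨_, rfl⟩
    rw [← hn] at j3 j4 j6
    have hnX : n ≤ X := by
      have h1 : m * j ≤ m * (0 + H) := Nat.mul_le_mul_left _ j2
      omega
    have hmf := Nat.minFac_prime (show n ≠ 1 by omega)
    have hsq : n.minFac ^ 2 ≤ n := Nat.minFac_sq_le_self (by omega) j4
    have h5 := j6 _ hmf (Nat.minFac_dvd n)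
    have h6 : (X : ℝ) ^ (1 / 2 : ℝ) ≤ H * (X : ℝ) ^ (-(1 / 100 : ℝ)) := by
      calc (X : ℝ) ^ (1 / 2 : ℝ) ≤ (X : ℝ) ^ (h + -(1 / 100 : ℝ)) := Real.rpow_le_rpow_of_exponent_le hX1 (by linarith)
        _ = (X : ℝ) ^ h * (X : ℝ) ^ (-(1 / 100 : ℝ)) := Real.rpow_add hX0 _ _
        _ ≤ _ := mul_le_mul_of_nonneg_right hHh (by positivity)
    have h7 : (X : ℝ) ^ (1 / 2 : ℝ) < n.minFac := lt_of_le_of_lt h6 h5
    have h8 : (X : ℝ) < (n.minFac : ℝ) ^ 2 := by
      calc (X : ℝ) = ((X : ℝ) ^ (1 / 2 : ℝ)) ^ 2 := by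
            rw [← Real.rpow_natCast, ← Real.rpow_mul hX0.le]
            norm_num
        _ < _ := by
            apply pow_lt_pow_left₀ h7 (by positivity) (by norm_num)
    have h9 : ((n.minFac : ℝ)) ^ 2 ≤ X := by exact_mod_cast hsq.trans hnX
    linarith
  · -- thin factor
    right
    rw [← hN] at k1 k2
    refine ⟨_, ?_, k1, k2⟩
    intro q hq
    unfold RichL at hq
    rw [mem_filter] at hq
    obtain ⟨-, q1, q2, -, q4⟩ := hq
    have hq0 : (0 : ℝ) < q := by exact_mod_cast q1.pos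
    obtain ⟨W, hW⟩ : ∃ W, W = (Ioc 0 (0 + H)).filter (fun j => Tms q 1 (m * j + a')) := ⟨_, rfl⟩
    have q5 : δ * (N / q) ≤ (W.card : ℝ) := by
      refine q4.trans (le_of_eq ?_)
      rw [hW]
    have hWspec : ∀ j ∈ W, ∃ p : ℕ, p.Prime ∧ q ≤ p ∧ m * j + a' = q * p ∧ j ≤ H := by
      intro j hj
      rw [hW, mem_filter, mem_Ioc] at hj
      obtain ⟨⟨j1, j2⟩, n, n1, n2, n3, n4⟩ := hj
      have hnp : n.Prime := by
        rcases hl : n.primeFactorsList with _ | ⟨x, _ | ⟨y, l⟩⟩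
        · have := (Nat.primeFactorsList_eq_nil n).1 hl
          omega
        · have h3 := Nat.prod_primeFactorsList (show n ≠ 0 by omega)
          rw [hl, List.prod_singleton] at h3
          rw [← h3]
          exact Nat.prime_of_mem_primeFactorsList (n := n) (by rw [hl]; simp)
        · rw [hl] at n3
          simp at n3
      exact ⟨n, hnp, n4 n hnp dvd_rfl, n2, by omega⟩
    have hWne : W.Nonempty := by
      rw [← card_pos]
      have : (0 : ℝ) < W.card := lt_of_lt_of_le (by positivity) q5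
      exact_mod_cast this
    obtain ⟨j₀, hj₀⟩ := hWne
    obtain ⟨p₀, p1, p2, p3, p4⟩ := hWspec j₀ hj₀
    have hle : ∀ j, j ≤ H → m * j + a' ≤ X := by
      intro j hj
      have h1 : m * j ≤ m * (0 + H) := Nat.mul_le_mul_left _ (by omega)
      omega
    have hqX : (q : ℝ) ≤ (X : ℝ) ^ (1 / 2 : ℝ) := by
      have h1 : q * q ≤ X := (Nat.mul_le_mul_left q p2).trans (p3 ▸ hle j₀ p4)
      have h2 : (q : ℝ) ^ 2 ≤ X := by
        rw [sq]
        exact_mod_cast h1
      rw [← Real.sqrt_eq_rpow]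
      exact Real.le_sqrt_of_sq_le h2
    have hqm : Nat.Coprime q m := by
      rw [Nat.Prime.coprime_iff_not_dvd q1]
      intro hd
      have h1 : q ∣ a' := by
        have h2 : q ∣ m * j₀ + a' := ⟨p₀, p3⟩
        exact (Nat.dvd_add_right (hd.mul_right j₀)).1 h2
      have h3 := Nat.dvd_gcd h1 hd
      rw [ham'] at h3
      exact q1.one_lt.ne' (Nat.dvd_one.1 h3)
    have hmod : ∀ j, m * j + a' ≡ a' [MOD m] := fun j => ((Nat.modEq_iff_dvd' (by omega)).2 (by simp)).symm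
    refine ⟨q1, ?_, hqX, p₀, ?_, ?_⟩
    · refine le_trans (Real.rpow_le_rpow_of_exponent_le hX1 (by linarith)) q2
    · rw [← p3]
      exact (hmod j₀).trans haa
    · obtain ⟨S, hS⟩ : ∃ S, S = W.image (fun j => (m * j + a') / q) := ⟨_, rfl⟩
      have hinj : Set.InjOn (fun j => (m * j + a') / q) (W : Set ℕ) := by
        intro i hi j hj hij
        obtain ⟨pi, -, -, i3, -⟩ := hWspec i hi
        obtain ⟨pj, -, -, j3, -⟩ := hWspec j hj
        simp only at hij
        rw [i3, j3, Nat.mul_div_cancel_left _ q1.pos, Nat.mul_div_cancel_left _ q1.pos] at hij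
        rw [hij, ← j3] at i3
        simp only [Nat.add_right_cancel_iff] at i3
        exact Nat.eq_of_mul_eq_mul_left hm i3
      have hcS : S.card = W.card := by rw [hS]; exact card_image_of_injOn hinj
      have hps := psi_ge (X / q) m p₀ S (1 / 9 * Real.log X) (by
        intro p hp
        rw [hS, mem_image] at hp
        obtain ⟨j, hj, rfl⟩ := hp
        obtain ⟨p', t1, t2, t3, t4⟩ := hWspec j hj
        rw [t3, Nat.mul_div_cancel_left _ q1.pos]
        refine ⟨t1, ?_, ?_, ?_⟩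
        · rw [le_div_iff₀ hq0, mul_comm]
          exact_mod_cast t3 ▸ hle j t4
        · have h1 : q * p' ≡ q * p₀ [MOD m] := by
            rw [← t3, ← p3]
            exact (hmod j).trans (hmod j₀).symm
          exact Nat.ModEq.cancel_left_of_coprime (by rw [Nat.gcd_comm]; exact hqm) h1
        · rw [← Real.log_rpow hX0]
          apply Real.log_le_log (by positivity)
          have h1 : (X : ℝ) ^ (1 / 9 : ℝ) ≤ q := le_trans (Real.rpow_le_rpow_of_exponent_le hX1 (by linarith)) q2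
          exact h1.trans (by exact_mod_cast t2))
      refine le_trans ?_ hps
      rw [hcS]
      calc δ * c / 36 * (X / q) / m.totient ≤ δ * c / 18 * (X / q) / m.totient := by gcongr; norm_num
        _ = 1 / 9 * Real.log X * (δ * ((c / 2 * X / m.totient / Real.log X) / q)) := by
            field_simp
            norm_num
        _ ≤ 1 / 9 * Real.log X * (δ * (N / q)) := by gcongr
        _ ≤ _ := mul_le_mul_of_nonneg_left q5 (by positivity)

end Pool.Agent.Results.MP_9cfc0a_nt.DeficientClasses
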