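import Pool.Agent.Q112.ML.Fin
import Pool.Agent.Q120.GM.Exists

/-!
# The almost sure order of the error in Montgomery's conjecture for moduli of every size, in the sieved models

`Q` is the level: the random set `A` contains each `n` coprime to `Q` independently with
probability `min(1, (Q/φ(Q))/log n)`, and no other `n`. For `Q = 1` this is the model of Cramér.
`psi A x q a` is the sum of `log n` over the `n ∈ A`, `n ≤ x`, `n ≡ a mod q`, and
`mean Q x q = (g/φ(g)) x/q`, `g = (q, Q)`.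

The error has the almost sure order `dev Q x q = √(2 · mean · log x · (2 log q + loglog x))` for moduli of EVERY size:
in every model, almost surely, `|psi - mean| ≤ (1+ε) dev` for all large `x`, all moduli `q ≤ x^{1-δ}` and all classes;
and for every function `f` with `1 ≤ f(x) ≤ x^{1-δ}` and either sign, `± (psi - mean) ≥ (1-ε) dev` for infinitely many
`x`, some `q` in `[f(x)/16, f(x)]` and some class. For fixed moduli this is the law of the iterated
logarithm, for `q = x^{c+o(1)}` the normaliser is `√(4 c · mean) log x`, and the transition is at `q = (log x)^c`.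
-/

set_option autoImplicit false

namespace Pool.Agent.Results.MP_9cfc0a_nt.IteratedLogarithmForAllModuli

open MeasureTheory Filter Pool.Agent.Q120.GM
open scoped Topology

/-- The sum of `log n` over the `n ∈ S`, `1 ≤ n ≤ x`, `n ≡ a mod q`. -/
noncomputable def psi (S : Set ℕ) (x q a : ℕ) : ℝ :=
  ∑ n ∈ (Finset.Icc 1 x).filter (fun n => n ≡ a [MOD q]), S.indicator (fun m : ℕ => Real.log m) n

/-- `(g/φ(g)) x/q`, `g = (q, Q)`. -/
noncomputable def mean (Q x q : ℕ) : ℝ := (Nat.gcd q Q : ℝ) / Nat.totient (Nat.gcd q Q) * (x / q)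

/-- The normaliser `√(2 · mean · log x · (2 log q + loglog x))`. -/
noncomputable def dev (Q x q : ℕ) : ℝ :=
  √(2 * mean Q x q * Real.log x * (2 * Real.log q + Real.log (Real.log x)))

theorem psi_eq (S : Set ℕ) (x q a : ℕ) : psi S x q a = Pool.Agent.Q112.ML.psi S x q a := by
  unfold psi Pool.Agent.Q112.ML.psi Pool.Agent.Q112.ML.sm Pool.Agent.Q112.ML.cls Pool.Agent.Q112.ML.ind
  refine Finset.sum_congr rfl fun n _ => ?_
  by_cases h : n ∈ S
  · rw [Set.indicator_of_mem h, Set.indicator_of_mem h, mul_one]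
  · rw [Set.indicator_of_notMem h, Set.indicator_of_notMem h, mul_zero]

theorem mean_eq (Q x q : ℕ) : mean Q x q = Pool.Agent.Q112.LE.kap Q q * ((x : ℝ) / q) := rfl

theorem dev_eq (Q x q : ℕ) : dev Q x q = Pool.Agent.Q112.ML.dv Q x q := rfl

/-- **The almost sure order of the error for moduli of every size.** The models exist, and in every model of level
`Q ≥ 1`, for all `0 < δ < 1` and `ε > 0`: (1) almost surely `|psi - mean| ≤ (1+ε) dev` for all large `x`, all
`q ≤ x^{1-δ}` and all `a` with `(a, q, Q) = 1`; (2) for every function `f` with `1 ≤ f(x)` for all `x` and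
`f(x) ≤ x^{1-δ}` for large `x`, almost surely there are infinitely many `x` with `psi - mean ≥ (1-ε) dev` for some
`q ∈ [f(x)/16, f(x)]` and some `a` coprime to `q`, and infinitely many `x` with
`mean - psi ≥ (1-ε) dev` for some such `q` and `a`. -/
theorem result : (∀ Q : ℕ, IsModel (prodMeasure (level Q)) (level Q) (trueSet (ι := ℕ))) ∧
    ∀ (Ω : Type) (_ : MeasurableSpace Ω) (μ : Measure Ω) (_ : IsProbabilityMeasure μ) (A : Ω → Set ℕ) (Q : ℕ),
      1 ≤ Q → IsModel μ (level Q) A → ∀ δ ε : ℝ, 0 < δ → δ < 1 → 0 < ε →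
        (∀ᵐ ω ∂μ, ∀ᶠ x : ℕ in atTop, ∀ q a : ℕ, 1 ≤ q → (q : ℝ) ≤ (x : ℝ) ^ (1 - δ) → Nat.gcd a (Nat.gcd q Q) = 1 →
          |psi (A ω) x q a - mean Q x q| ≤ (1 + ε) * dev Q x q) ∧
        (∀ f : ℕ → ℕ, (∀ x, 1 ≤ f x) → (∀ᶠ x : ℕ in atTop, (f x : ℝ) ≤ (x : ℝ) ^ (1 - δ)) →
          ∀ᵐ ω ∂μ,
            (∃ᶠ x : ℕ in atTop, ∃ q a : ℕ, f x ≤ 16 * q ∧ q ≤ f x ∧ a ≤ q ∧ Nat.Coprime a q ∧
              (1 - ε) * dev Q x q ≤ psi (A ω) x q a - mean Q x q) ∧
            (∃ᶠ x : ℕ in atTop, ∃ q a : ℕ, f x ≤ 16 * q ∧ q ≤ f x ∧ a ≤ q ∧ Nat.Coprime a q ∧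
              (1 - ε) * dev Q x q ≤ mean Q x q - psi (A ω) x q a)) := by
  refine ⟨fun Q => isModel (level Q) (level_nonneg Q) (level_le_one Q), ?_⟩
  intro Ω _ μ _ A Q hQ hA δ ε hδ hδ1 hε
  refine ⟨?_, fun f hf1 hf => ?_⟩
  · filter_upwards [Pool.Agent.Q112.ML.f_t2u Ω μ A Q hQ hA δ ε hδ hδ1 hε] with ω hω
    filter_upwards [hω] with x hx q a hq hqx hg
    rw [psi_eq, mean_eq, dev_eq]
    exact hx q a hq hqx hg
  · filter_upwards [Pool.Agent.Q112.ML.f_t2l Ω μ A Q hQ hA δ f hδ hδ1 hf1 hf ε 1 hε (Or.inl rfl),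
      Pool.Agent.Q112.ML.f_t2l Ω μ A Q hQ hA δ f hδ hδ1 hf1 hf ε (-1) hε (Or.inr rfl)] with ω h1 h2
    refine ⟨h1.mono ?_, h2.mono ?_⟩
    · rintro x ⟨q, a, g1, g2, g3, g4, g5⟩
      refine ⟨q, a, g1, g2, g3, g4, ?_⟩
      rw [psi_eq, mean_eq, dev_eq]
      linarith
    · rintro x ⟨q, a, g1, g2, g3, g4, g5⟩
      refine ⟨q, a, g1, g2, g3, g4, ?_⟩
      rw [psi_eq, mean_eq, dev_eq]
      linarith

end Pool.Agent.Results.MP_9cfc0a_nt.IteratedLogarithmForAllModuli
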