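import Pool.Agent.Q152.QH.All
import Pool.Agent.Q152.TypEHBound

/-!
# Montgomery's conjecture for the twists by almost all quadratic characters
-/

set_option autoImplicit false

namespace Pool.Agent.Results.MP_9cfc0a_nt.QuadraticTwists

open Finset Filter

/-- the primes `p ≡ a` modulo `q` with `u < p ≤ v` -/
def primesIn (u v q a : ℕ) : Finset ℕ := (Ioc u v).filter fun p => p.Prime ∧ p ≡ a [MOD q]

/-- the sum of `g(p) log p (p / m) e(F(p))` over the primes `p ≡ a` modulo `q` with `u < p ≤ v`;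
`(p / m)` is the Jacobi symbol, `e(x) = exp(2 π i x)` -/
noncomputable def S (g : ℕ → ℂ) (m : ℕ) (F : Polynomial ℝ) (u v q a : ℕ) : ℂ :=
  ∑ p ∈ primesIn u v q a, g p * (Real.log p : ℂ) * ((jacobiSym (p : ℤ) m : ℤ) : ℂ) *
    Complex.exp ((2 * Real.pi * F.eval (p : ℝ) : ℝ) * Complex.I)

/-- the bound of Montgomery's conjecture up to `X`, for all intervals, moduli, classes and polynomials of degree `≤ d` -/
def Power (g : ℕ → ℂ) (d : ℕ) (ε X : ℝ) (m : ℕ) : Prop :=
  ∀ q a u v : ℕ, 1 ≤ q → (q : ℝ) ≤ X → u ≤ v → (v : ℝ) ≤ X → ∀ F : Polynomial ℝ, F.natDegree ≤ d →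
    ‖S g m F u v q a‖ ≤ X ^ ε * √(((v : ℝ) - u) / q + 1)

/-- the sharp bound up to `X` -/
def Sharp (g : ℕ → ℂ) (d : ℕ) (C X : ℝ) (m : ℕ) : Prop :=
  ∀ q a u v : ℕ, 1 ≤ q → (q : ℝ) ≤ X → (v : ℝ) ≤ X → ∀ F : Polynomial ℝ, F.natDegree ≤ d →
    ‖S g m F u v q a‖ ≤ C * √(Real.log X * ∑ p ∈ primesIn u v q a, Real.log p ^ 2) ∧
    ∀ δ : ℝ, 0 < δ → (q : ℝ) ≤ X ^ (1 - δ) →
      ‖S g m F u v q a‖ ≤ C / √δ * (Real.log X * √(X / (Nat.totient q : ℝ)))

open Pool.Agent.Q152.QH Pool.Agent.Q152.QT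

theorem primesIn_eq (u v q a : ℕ) : primesIn u v q a = pr u v q (a % q) := rfl

theorem S_eq (g : ℕ → ℂ) (m : ℕ) (F : Polynomial ℝ) (u v q a : ℕ) :
    S g m F u v q a = Sg (fun p => g p * (Real.log p : ℂ)) F m u v q (a % q) := by
  unfold S Sg eF
  rw [primesIn_eq]

theorem V_le (g : ℕ → ℂ) (hg : ∀ n, ‖g n‖ ≤ 1) (u v q a : ℕ) :
    Vg (fun p => g p * (Real.log p : ℂ)) u v q (a % q) ≤ ∑ p ∈ primesIn u v q a, Real.log p ^ 2 := by
  unfold Vg
  rw [primesIn_eq]
  refine sum_le_sum fun p _ => ?_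
  have h0 : 0 ≤ Real.log p := Real.log_natCast_nonneg p
  have h1 : ‖g p * (Real.log p : ℂ)‖ ≤ Real.log p := by
    rw [norm_mul, Complex.norm_real, Real.norm_of_nonneg h0]
    exact mul_le_of_le_one_left h0 (hg p)
  exact pow_le_pow_left₀ (norm_nonneg _) h1 2

theorem sum_le (X : ℝ) (u v q a : ℕ) (hv : (v : ℝ) ≤ X) :
    ∑ p ∈ primesIn u v q a, Real.log p ^ 2 ≤ (primesIn u v q a).card * Real.log X ^ 2 := by
  rw [← nsmul_eq_mul, ← sum_const]
  refine sum_le_sum fun p hp => ?_
  unfold primesIn at hp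
  rw [mem_filter, mem_Ioc] at hp
  have hp0 : (0 : ℝ) < p := by exact_mod_cast hp.2.1.pos
  have h1 : (p : ℝ) ≤ X := le_trans (by exact_mod_cast hp.1.2) hv
  exact pow_le_pow_left₀ (Real.log_natCast_nonneg p) (Real.log_le_log hp0 h1) 2

theorem card_le' (u v q a : ℕ) (hq : 1 ≤ q) (huv : u ≤ v) :
    ((primesIn u v q a).card : ℝ) ≤ ((v : ℝ) - u) / q + 1 := by
  have h1 : (primesIn u v q a).card ≤ ((Ioc u v).filter fun x => x ≡ a [MOD q]).card := by
    unfold primesIn
    exact card_le_card fun x hx => by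
      rw [mem_filter] at hx ⊢
      exact ⟨hx.1, hx.2.2⟩
  have h2 := Nat.Ioc_filter_modEq_card u v (r := q) (by omega) a
  have hqQ : (0 : ℚ) < q := by exact_mod_cast hq
  have h3 : ((((Ioc u v).filter fun x => x ≡ a [MOD q]).card : ℤ) : ℚ) ≤ ((v : ℚ) - u) / q + 1 := by
    rw [h2]
    rw [Int.cast_max]
    refine max_le ?_ ?_
    · push_cast
      have e1 := Int.floor_le (((v : ℚ) - a) / q)
      have e2 := Int.lt_floor_add_one (((u : ℚ) - a) / q)
      have e3 : ((v : ℚ) - a) / q - ((u : ℚ) - a) / q = ((v : ℚ) - u) / q := by ring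
      linarith
    · push_cast
      have : (0 : ℚ) ≤ ((v : ℚ) - u) / q := by
        have : (u : ℚ) ≤ v := by exact_mod_cast huv
        apply div_nonneg <;> linarith
      linarith
  have h4 : (((Ioc u v).filter fun x => x ≡ a [MOD q]).card : ℝ) ≤ ((v : ℝ) - u) / q + 1 := by
    have h5 : ((((Ioc u v).filter fun x => x ≡ a [MOD q]).card : ℚ) : ℝ) ≤
        ((((v : ℚ) - u) / q + 1 : ℚ) : ℝ) := by
      refine Rat.cast_le.2 ?_
      exact_mod_cast h3
    push_cast at h5
    exact h5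
  exact le_trans (by exact_mod_cast h1) h4

open Classical in
/-- from natural to real heights -/
theorem real_Y (B : ℕ) (P : ℕ) (Y : ℝ) (hY : (2 : ℝ) ^ (B + 1) ≤ Y) (c : ℝ)
    (hc : c ≤ P / ((⌊Y⌋₊ : ℕ) : ℝ) ^ (B + 1)) : c ≤ P / Y ^ B := by
  have hY2 : 2 ≤ Y := by
    refine le_trans ?_ hY
    calc (2 : ℝ) = 2 ^ 1 := (pow_one _).symm
      _ ≤ 2 ^ (B + 1) := pow_le_pow_right₀ one_le_two (by omega)
  have hY0 : 0 < Y := by linarith
  have h1 : Y / 2 ≤ (⌊Y⌋₊ : ℕ) := by
    have := Nat.lt_floor_add_one Y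
    linarith
  have h2 : (Y / 2) ^ (B + 1) ≤ ((⌊Y⌋₊ : ℕ) : ℝ) ^ (B + 1) := pow_le_pow_left₀ (by positivity) h1 _
  refine hc.trans ?_
  have hP0 : (0 : ℝ) ≤ P := Nat.cast_nonneg _
  refine div_le_div_of_nonneg_left hP0 (by positivity) (le_trans ?_ h2)
  rw [div_pow, le_div_iff₀ (by positivity), pow_succ Y]
  exact mul_le_mul_of_nonneg_left hY (by positivity)

open Classical in
/-- **Theorem.** -/
theorem result (d B : ℕ) :
    (∀ ε : ℝ, 0 < ε → ∃ (A : ℕ) (Y₀ : ℝ), ∀ g : ℕ → ℂ, (∀ n, ‖g n‖ ≤ 1) → ∀ (P : ℕ) (Y : ℝ), Y₀ ≤ Y →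
      ((((range (P + 1)).filter fun m => Odd m ∧ ¬ ∀ X : ℝ, Y ≤ X → X ^ A ≤ P → Power g d ε X m).card : ℕ) : ℝ) ≤
        P / Y ^ B) ∧
    (∃ C Y₀ : ℝ, ∀ g : ℕ → ℂ, (∀ n, ‖g n‖ ≤ 1) → ∀ (P : ℕ) (Y : ℝ), Y₀ ≤ Y →
      ((((range (P + 1)).filter fun m => Odd m ∧ ¬ ∀ X : ℝ, Y ≤ X → 4 * Real.log X ^ 2 ≤ Real.log P →
        Sharp g d C X m).card : ℕ) : ℝ) ≤ P / Y ^ B) := by
  obtain ⟨E, Y₁, hY₁, H⟩ := all_scales d (B + 1)
  refine ⟨fun ε hε => ?_, ?_⟩
  · -- the power saving
    obtain ⟨K, hK⟩ := exists_nat_ge (max 1 (E / ε))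
    have hK1 : (1 : ℝ) ≤ K := (le_max_left _ _).trans hK
    have hK1' : 1 ≤ K := by exact_mod_cast hK1
    have hKE : (E : ℝ) / K ≤ ε := by
      have h1 : (E : ℝ) / ε ≤ K := (le_max_right _ _).trans hK
      rw [div_le_iff₀ hε] at h1
      rw [div_le_iff₀ (by linarith)]
      linarith
    obtain ⟨X₁, hX₁⟩ : ∃ X₁ : ℝ, ∀ X : ℝ, X₁ ≤ X → 7 * √K * Real.log X ≤ X ^ (ε / 2) := by
      have h1 := isLittleO_log_rpow_atTop (show 0 < ε / 2 by positivity)
      have h2 := h1.bound (show 0 < 1 / (7 * √(K : ℝ)) by positivity)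
      obtain ⟨X₁, hX₁⟩ := Filter.eventually_atTop.1 h2
      refine ⟨max X₁ 1, fun X hX => ?_⟩
      have h3 := hX₁ X ((le_max_left _ _).trans hX)
      have hX1 : 1 ≤ X := (le_max_right _ _).trans hX
      rw [Real.norm_of_nonneg (Real.log_nonneg hX1), Real.norm_of_nonneg (by positivity), div_mul_eq_mul_div,
        one_mul, le_div_iff₀ (by positivity)] at h3
      linarith
    refine ⟨3 * K + 1, max (max ((Y₁ : ℝ) + 1) (2 ^ (B + 1))) (max X₁ (K + 4)), fun g hg P Y hY => ?_⟩
    have a1 : (Y₁ : ℝ) + 1 ≤ Y := (le_max_left _ _).trans ((le_max_left _ _).trans hY)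
    have a2 : (2 : ℝ) ^ (B + 1) ≤ Y := (le_max_right _ _).trans ((le_max_left _ _).trans hY)
    have a3 : X₁ ≤ Y := (le_max_left _ _).trans ((le_max_right _ _).trans hY)
    have a4 : (K : ℝ) + 4 ≤ Y := (le_max_right _ _).trans ((le_max_right _ _).trans hY)
    have a5 : Y₁ ≤ ⌊Y⌋₊ := Nat.le_floor (by linarith)
    refine real_Y B P Y a2 _ (le_trans (Nat.cast_le.2 (card_le_card fun m hm => ?_))
      (H (fun p => g p * (Real.log p : ℂ)) P ⌊Y⌋₊ a5))
    rw [mem_filter] at hm
    rw [mem_filter, om, mem_filter]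
    refine ⟨⟨hm.1, hm.2.1⟩, fun hgood => hm.2.2 fun X hX hXP => ?_⟩
    intro q a u v hq hqX huv hvX F hF
    have hX1 : 1 ≤ X := by linarith
    have hX0 : 0 < X := by linarith
    set N := ⌊X⌋₊ with hN
    have hNX : (N : ℝ) ≤ X := Nat.floor_le hX0.le
    have hNK : K ≤ N := Nat.le_floor (by linarith)
    have hN0 : (0 : ℝ) < N := by
      have : 0 < N := by omega
      exact_mod_cast this
    have hP : 4 * N ^ (3 * K) ≤ P := by
      have h1 : (4 : ℝ) * (N : ℝ) ^ (3 * K) ≤ P := by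
        calc (4 : ℝ) * (N : ℝ) ^ (3 * K) ≤ X * X ^ (3 * K) := by
              refine mul_le_mul (by linarith) (pow_le_pow_left₀ hN0.le hNX _) (by positivity) hX0.le
          _ = X ^ (3 * K + 1) := by ring
          _ ≤ P := hXP
      exact_mod_cast h1
    have h1 := hgood N K (Nat.floor_mono hX) hK1' hNK hP u v q (a % q) (Nat.le_floor hvX) (Nat.le_floor hqX) F hF
    rw [← S_eq] at h1
    refine h1.trans ?_
    have hV := (V_le g hg u v q a).trans (sum_le X u v q a hvX)
    have hcard := card_le' u v q a hq huv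
    have hR0 : 0 ≤ ((v : ℝ) - u) / q + 1 := (Nat.cast_nonneg _).trans hcard
    set R := ((v : ℝ) - u) / q + 1 with hR
    have hNe : (N : ℝ) ^ ((E : ℝ) / K) ≤ X ^ ε :=
      (Real.rpow_le_rpow hN0.le hNX (by positivity)).trans (Real.rpow_le_rpow_of_exponent_le hX1 hKE)
    have hlog : 0 ≤ Real.log X := Real.log_nonneg hX1
    have h2 : K * (N : ℝ) ^ ((E : ℝ) / K) * Vg (fun p => g p * (Real.log p : ℂ)) u v q (a % q) ≤
        (√K * X ^ (ε / 2) * Real.log X) ^ 2 * R := by
      have e1 : (√K * X ^ (ε / 2) * Real.log X) ^ 2 = K * X ^ ε * Real.log X ^ 2 := by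
        rw [mul_pow, mul_pow, Real.sq_sqrt (by linarith), ← Real.rpow_natCast (X ^ (ε / 2)), ← Real.rpow_mul hX0.le]
        congr 3
        push_cast
        ring
      rw [e1]
      have hV0 : 0 ≤ Vg (fun p => g p * (Real.log p : ℂ)) u v q (a % q) := sum_nonneg fun _ _ => by positivity
      have hV2 : Vg (fun p => g p * (Real.log p : ℂ)) u v q (a % q) ≤ R * Real.log X ^ 2 :=
        hV.trans (mul_le_mul_of_nonneg_right hcard (by positivity))
      calc K * (N : ℝ) ^ ((E : ℝ) / K) * Vg (fun p => g p * (Real.log p : ℂ)) u v q (a % q) ≤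
            K * X ^ ε * (R * Real.log X ^ 2) := by
              refine mul_le_mul (mul_le_mul_of_nonneg_left hNe (by linarith)) hV2 hV0 (by positivity)
        _ = K * X ^ ε * Real.log X ^ 2 * R := by ring
    have h3 : 7 * √(K * (N : ℝ) ^ ((E : ℝ) / K) * Vg (fun p => g p * (Real.log p : ℂ)) u v q (a % q)) ≤
        7 * (√K * X ^ (ε / 2) * Real.log X * √R) := by
      refine mul_le_mul_of_nonneg_left ?_ (by norm_num)
      refine (Real.sqrt_le_sqrt h2).trans (le_of_eq ?_)
      rw [Real.sqrt_mul (by positivity), Real.sqrt_sq (by positivity)]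
    refine h3.trans ?_
    have h4 := hX₁ X (a3.trans hX)
    calc 7 * (√K * X ^ (ε / 2) * Real.log X * √R) = (7 * √K * Real.log X) * X ^ (ε / 2) * √R := by ring
      _ ≤ X ^ (ε / 2) * X ^ (ε / 2) * √R := by
          refine mul_le_mul_of_nonneg_right ?_ (Real.sqrt_nonneg _)
          exact mul_le_mul_of_nonneg_right h4 (by positivity)
      _ = X ^ ε * √R := by
          rw [← Real.rpow_add hX0, add_halves]
  · -- the sharp bound
    refine ⟨max (7 * Real.exp E) (7 * Real.exp E * √132), max (max ((Y₁ : ℝ) + 1) (2 ^ (B + 1))) 16,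
      fun g hg P Y hY => ?_⟩
    set C := max (7 * Real.exp E) (7 * Real.exp E * √132) with hC
    have a1 : (Y₁ : ℝ) + 1 ≤ Y := (le_max_left _ _).trans ((le_max_left _ _).trans hY)
    have a2 : (2 : ℝ) ^ (B + 1) ≤ Y := (le_max_right _ _).trans ((le_max_left _ _).trans hY)
    have a3 : 16 ≤ Y := (le_max_right _ _).trans hY
    have a5 : Y₁ ≤ ⌊Y⌋₊ := Nat.le_floor (by linarith)
    refine real_Y B P Y a2 _ (le_trans (Nat.cast_le.2 (card_le_card fun m hm => ?_))
      (H (fun p => g p * (Real.log p : ℂ)) P ⌊Y⌋₊ a5))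
    rw [mem_filter] at hm
    rw [mem_filter, om, mem_filter]
    refine ⟨⟨hm.1, hm.2.1⟩, fun hgood => hm.2.2 fun X hX hXP => ?_⟩
    intro q a u v hq hqX hvX F hF
    have hX16 : 16 ≤ X := a3.trans hX
    have hX1 : 1 ≤ X := by linarith
    have hX0 : 0 < X := by linarith
    set N := ⌊X⌋₊ with hN
    have hNX : (N : ℝ) ≤ X := Nat.floor_le hX0.le
    have hN16 : 16 ≤ N := Nat.le_floor (by exact_mod_cast hX16)
    have hN16' : (16 : ℝ) ≤ N := by exact_mod_cast hN16
    have hN0 : (0 : ℝ) < N := by linarith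
    have hlN : 2 ≤ Real.log N := by
      have h1 : Real.log 16 ≤ Real.log N := Real.log_le_log (by norm_num) hN16'
      have h2 : Real.log 16 = 4 * Real.log 2 := by
        rw [show (16 : ℝ) = 2 ^ 4 by norm_num, Real.log_pow]
        norm_num
      have := Real.log_two_gt_d9
      linarith
    have hlNX : Real.log N ≤ Real.log X := Real.log_le_log hN0 hNX
    set k := ⌊Real.log N⌋₊ with hk
    have hk1 : 1 ≤ k := Nat.le_floor (by push_cast; linarith)
    have hkR : (1 : ℝ) ≤ k := by exact_mod_cast hk1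
    have hkl : (k : ℝ) ≤ Real.log N := Nat.floor_le (by linarith)
    have hkl2 : Real.log N / 2 ≤ k := by
      have := Nat.lt_floor_add_one (Real.log N)
      rw [← hk] at this
      linarith
    have hkN : k ≤ N := by
      have h1 : Real.log N ≤ N := (Real.log_le_sub_one_of_pos hN0).trans (by linarith)
      exact_mod_cast hkl.trans h1
    have hP : 4 * N ^ (3 * k) ≤ P := by
      have hP0 : (0 : ℝ) < P := by
        rcases Nat.eq_zero_or_pos P with h | h
        · exfalso
          rw [h, Nat.cast_zero, Real.log_zero] at hXP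
          have : 0 < Real.log X := by linarith
          have : 0 < Real.log X ^ 2 := by positivity
          linarith
        · exact_mod_cast h
      have h1 : (4 : ℝ) * (N : ℝ) ^ (3 * k) ≤ P := by
        rw [← Real.log_le_log_iff (by positivity) hP0, Real.log_mul (by norm_num) (by positivity), Real.log_pow]
        refine le_trans ?_ hXP
        have h2 : Real.log 4 ≤ 2 := by
          rw [show (4 : ℝ) = 2 ^ 2 by norm_num, Real.log_pow]
          have := Real.log_two_lt_d9
          push_cast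
          linarith
        push_cast
        have h3 : (k : ℝ) * Real.log N ≤ Real.log X ^ 2 := by
          rw [sq]
          exact mul_le_mul (hkl.trans hlNX) hlNX (by linarith) (by linarith)
        nlinarith
      exact_mod_cast h1
    have h1 := hgood N k (Nat.floor_mono hX) hk1 hkN hP u v q (a % q) (Nat.le_floor hvX) (Nat.le_floor hqX) F hF
    rw [← S_eq] at h1
    have hV := V_le g hg u v q a
    have hV0 : 0 ≤ Vg (fun p => g p * (Real.log p : ℂ)) u v q (a % q) := sum_nonneg fun _ _ => by positivity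
    set W := ∑ p ∈ primesIn u v q a, Real.log p ^ 2 with hW
    have hW0 : 0 ≤ W := hV0.trans hV
    have hlX : 0 < Real.log X := by linarith
    have hNe : (N : ℝ) ^ ((E : ℝ) / k) ≤ Real.exp E ^ 2 := by
      rw [Real.rpow_def_of_pos hN0, ← Real.exp_nat_mul]
      refine Real.exp_le_exp.2 ?_
      push_cast
      rw [mul_div_assoc', div_le_iff₀ (by linarith)]
      have : (0 : ℝ) ≤ E := Nat.cast_nonneg _
      nlinarith
    have h2 : 7 * √(k * (N : ℝ) ^ ((E : ℝ) / k) * Vg (fun p => g p * (Real.log p : ℂ)) u v q (a % q)) ≤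
        7 * Real.exp E * √(Real.log X * W) := by
      rw [mul_assoc (7 : ℝ) (Real.exp E)]
      refine mul_le_mul_of_nonneg_left ?_ (by norm_num)
      have e1 : k * (N : ℝ) ^ ((E : ℝ) / k) * Vg (fun p => g p * (Real.log p : ℂ)) u v q (a % q) ≤
          Real.exp E ^ 2 * (Real.log X * W) := by
        calc k * (N : ℝ) ^ ((E : ℝ) / k) * Vg (fun p => g p * (Real.log p : ℂ)) u v q (a % q) ≤
              Real.log X * Real.exp E ^ 2 * W := by
                refine mul_le_mul (mul_le_mul (hkl.trans hlNX) hNe (by positivity) hlX.le) hV hV0 (by positivity)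
          _ = Real.exp E ^ 2 * (Real.log X * W) := by ring
      refine (Real.sqrt_le_sqrt e1).trans (le_of_eq ?_)
      rw [Real.sqrt_mul (by positivity), Real.sqrt_sq (by positivity)]
    have h3 := h1.trans h2
    have hC1 : 7 * Real.exp E ≤ C := le_max_left _ _
    have hC2 : 7 * Real.exp E * √132 ≤ C := le_max_right _ _
    refine ⟨h3.trans (mul_le_mul_of_nonneg_right hC1 (Real.sqrt_nonneg _)), fun δ hδ hqδ => ?_⟩
    -- Brun-Titchmarsh
    have hcard : ((primesIn u v q a).card : ℝ) ≤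
        (Pool.Agent.H300R2.WEH.piR (N : ℝ) q a : ℝ) := by
      unfold Pool.Agent.H300R2.WEH.piR
      refine Nat.cast_le.2 (card_le_card fun p hp => ?_)
      unfold primesIn at hp
      rw [mem_filter, mem_Ioc] at hp
      rw [mem_filter, mem_Icc, Nat.floor_natCast]
      exact ⟨⟨hp.2.1.one_lt.le, hp.1.2.trans (Nat.le_floor hvX)⟩, hp.2⟩
    have hφ : (0 : ℝ) < Nat.totient q := by exact_mod_cast Nat.totient_pos.2 (by omega)
    have hXN : X ≤ (N + 1 : ℕ) := by
      push_cast
      exact (Nat.lt_floor_add_one X).le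
    have hbt := Pool.Agent.Q152.TypEH.bt δ hδ (N + 1) q a (by omega) hq (by
      refine hqδ.trans ?_
      rcases le_or_gt δ 1 with h | h
      · exact Real.rpow_le_rpow hX0.le hXN (by linarith)
      · exfalso
        have h1 : X ^ (1 - δ) < 1 := Real.rpow_lt_one_of_one_lt_of_neg (by linarith) (by linarith)
        have h2 : (1 : ℝ) ≤ q := by exact_mod_cast hq
        linarith) (N : ℝ) (by push_cast; linarith)
    have h4 : (((N + 1 : ℕ) : ℝ)) / ((Nat.totient q : ℝ) * Real.log ((N + 1 : ℕ) : ℝ)) ≤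
        2 * (X / ((Nat.totient q : ℝ) * Real.log X)) := by
      have e1 : Real.log X ≤ Real.log ((N + 1 : ℕ) : ℝ) := Real.log_le_log hX0 hXN
      have e2 : ((N + 1 : ℕ) : ℝ) ≤ 2 * X := by
        push_cast
        linarith
      rw [← mul_div_assoc]
      refine div_le_div₀ (by positivity) e2 (by positivity) ?_
      exact mul_le_mul_of_nonneg_left e1 hφ.le
    have h5 : W ≤ 132 / δ * (X / (Nat.totient q : ℝ)) * Real.log X := by
      have e1 : ((primesIn u v q a).card : ℝ) ≤ 66 / δ * (2 * (X / ((Nat.totient q : ℝ) * Real.log X))) :=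
        hcard.trans (hbt.trans (mul_le_mul_of_nonneg_left h4 (by positivity)))
      calc W ≤ (primesIn u v q a).card * Real.log X ^ 2 := sum_le X u v q a hvX
        _ ≤ 66 / δ * (2 * (X / ((Nat.totient q : ℝ) * Real.log X))) * Real.log X ^ 2 :=
            mul_le_mul_of_nonneg_right e1 (by positivity)
        _ = 132 / δ * (X / (Nat.totient q : ℝ)) * Real.log X := by
            field_simp
            norm_num
    have h6 : √(Real.log X * W) ≤ √132 / √δ * (Real.log X * √(X / (Nat.totient q : ℝ))) := by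
      have e1 : Real.log X * W ≤ 132 / δ * (Real.log X ^ 2 * (X / (Nat.totient q : ℝ))) := by
        calc Real.log X * W ≤ Real.log X * (132 / δ * (X / (Nat.totient q : ℝ)) * Real.log X) :=
              mul_le_mul_of_nonneg_left h5 hlX.le
          _ = _ := by ring
      refine (Real.sqrt_le_sqrt e1).trans (le_of_eq ?_)
      rw [Real.sqrt_mul (by positivity), Real.sqrt_div (by norm_num), Real.sqrt_mul (by positivity),
        Real.sqrt_sq hlX.le]
    have h7 : 0 ≤ Real.log X * √(X / (Nat.totient q : ℝ)) := by positivity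
    calc ‖S g m F u v q a‖ ≤ 7 * Real.exp E * √(Real.log X * W) := h3
      _ ≤ 7 * Real.exp E * (√132 / √δ * (Real.log X * √(X / (Nat.totient q : ℝ)))) :=
          mul_le_mul_of_nonneg_left h6 (by positivity)
      _ = (7 * Real.exp E * √132) / √δ * (Real.log X * √(X / (Nat.totient q : ℝ))) := by ring
      _ ≤ C / √δ * (Real.log X * √(X / (Nat.totient q : ℝ))) := by
          refine mul_le_mul_of_nonneg_right ?_ h7
          exact div_le_div_of_nonneg_right hC2 (Real.sqrt_nonneg _)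

end Pool.Agent.Results.MP_9cfc0a_nt.QuadraticTwists
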