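import Pool.Agent.Q145.LD.Far
import Pool.Agent.Q145.LD.MultReg

set_option autoImplicit false
set_option maxHeartbeats 4000000

/-!
# Uniform distribution of primes in all classes, for sparse random samples of the progressions

Montgomery's conjecture says that the primes up to `x` are uniformly distributed in all reduced
classes modulo `q`, with an error of the size of the square root of the number of the terms of
the progression, in particular already for progressions with few terms.  We prove uniform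
distribution in all reduced classes modulo almost all `d ≤ D` for almost all *samples* of the
progressions: the terms `a + s_i d`, where `s_1, s_2, ...` is a random sequence from `[1, Y]`,
`Y ≥ D^(1 + γ)`.  The sample may be as short as a constant times `log φ(d) log(dY)`; the
threshold, including the constant as a function of the relative error `ε`, is determined.
-/

namespace Pool.Agent.Results.MP_9cfc0a_nt.SparseSamplesOfClasses

open Finset

open scoped Classical

/-- All sequences of length `K` of integers from `[1, Y]`. -/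
def Seqs (Y K : ℕ) : Finset (Fin K → ℕ) := Fintype.piFinset (fun _ : Fin K => Icc 1 Y)

/-- The reduced classes modulo `d`, represented in `[1, d]`. -/
noncomputable def Classes (d : ℕ) : Finset ℕ := (Icc 1 d).filter (fun a => a.Coprime d)

/-- The number of the primes among `a + s_i d`, `j < i ≤ j + k`, divided by its expected value
`k (d/φ(d)) / log(dY)` (the terms of the sequence are `s_{i+1} = s i`, `i : Fin K`). -/
noncomputable def ratio (d Y : ℕ) {K : ℕ} (s : Fin K → ℕ) (j k a : ℕ) : ℝ :=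
  ((univ.filter (fun i : Fin K => j ≤ (i : ℕ) ∧ (i : ℕ) < j + k ∧ (a + s i * d).Prime)).card : ℝ) /
    (k * ((d : ℝ) / d.totient / Real.log (d * Y : ℝ)))

/-- The rate function `1 - u + u log u`. -/
noncomputable def J (u : ℝ) : ℝ := 1 - u + u * Real.log u

/-- The critical number of terms `(φ(d)/d) log(X) log(dY) / J(1 + ε)`. -/
noncomputable def crit (ε : ℝ) (d Y : ℕ) (X : ℝ) : ℝ :=
  (d.totient : ℝ) / d * (Real.log X * Real.log (d * Y : ℝ)) / J (1 + ε)

open Pool.Agent.Q145.LD Pool.Agent.Q145.RA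

theorem whit_eq {K : ℕ} (d : ℕ) (s : Fin K → ℕ) (j k a : ℕ) :
    ((univ.filter (fun i : Fin K => j ≤ (i : ℕ) ∧ (i : ℕ) < j + k ∧ (a + s i * d).Prime)).card : ℝ) =
      whit (fun a s => (a + s * d).Prime) s j k a := by
  unfold whit
  rw [card_filter]
  push_cast
  apply sum_congr rfl
  intro i _
  split_ifs <;> rfl

theorem whit_full (d K : ℕ) (s : Fin K → ℕ) : whit (fun a s => (a + s * d).Prime) s 0 K =
    hit (fun a s => (a + s * d).Prime) s := by
  funext n
  unfold whit hit
  apply sum_congr rfl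
  intro i _
  by_cases h : (n + s i * d).Prime
  · rw [if_pos h, if_pos ⟨Nat.zero_le _, by have := i.2; omega, h⟩]
  · rw [if_neg h, if_neg (fun h' => h h'.2.2)]

theorem result (ε γ : ℝ) (hε : 0 < ε) (hε1 : ε < 1) (hγ : 0 < γ) (hγ1 : γ ≤ 1) : ∃ D₀ : ℕ,
    ∀ D Y : ℕ, D₀ ≤ D → (D : ℝ) ^ (1 + γ) ≤ Y →
    ∃ B ⊆ Icc 1 D, (B.card : ℝ) ≤ γ * D ∧ ∀ d ∈ Icc 1 D, d ∉ B → ∀ K : ℕ,
    (((Seqs Y K).filter (fun s => ¬ ∀ j k : ℕ, 0 < k → j + k ≤ K →
      (1 + γ) * crit ε d Y (d.totient * (K : ℝ) ^ 2) ≤ k →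
      ∀ a ∈ Classes d, |ratio d Y s j k a - 1| ≤ ε)).card : ℝ) ≤ γ * (Y : ℝ) ^ K ∧
    (γ * crit ε d Y d.totient ≤ K → (K : ℝ) ≤ (1 - γ) * crit ε d Y d.totient →
      (((Seqs Y K).filter (fun s => ¬ ∃ a ∈ Classes d, 1 + ε ≤ ratio d Y s 0 K a)).card : ℝ) ≤
        γ * (Y : ℝ) ^ K) := by
  have hJ : 0 < J (1 + ε) := I_pos (1 + ε) (by linarith) (by linarith)
  have hJ1 : J (1 + ε) ≤ 1 := by
    have h1 : J (1 + ε) ≤ (1 + ε - 1) ^ 2 / 2 := I_le_half (1 + ε) (by linarith)
    nlinarith
  obtain ⟨η, X₁, hη, h1⟩ := windows (α := ℕ) (β := ℕ) ε γ hε hε1 hγ hγ1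
  obtain ⟨m, h2⟩ := profile (α := ℕ) (β := ℕ) (1 / J (1 + ε)) γ (by positivity) hγ hγ1
  obtain ⟨D₀, h3⟩ := mult_reg γ (min η (1 / (m + 1 : ℝ))) hγ (lt_min hη (by positivity)) (max (max X₁ m) 3)
  refine ⟨max D₀ 2, fun D Y hD hDY => ?_⟩
  obtain ⟨B, hB1, hB2, hB3⟩ := h3 D Y ((le_max_left _ _).trans hD) hDY
  refine ⟨B, hB1, hB2, fun d hd hdB K => ?_⟩
  obtain ⟨hd7, hφN, hδ, hδ1, hreg⟩ := hB3 d hd hdB
  have hD2 : 2 ≤ D := (le_max_right _ _).trans hD
  have hDr : (2 : ℝ) ≤ D := by exact_mod_cast hD2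
  have hYr : (2 : ℝ) ≤ Y := by
    refine hDr.trans (le_trans ?_ hDY)
    calc (D : ℝ) = (D : ℝ) ^ (1 : ℝ) := (Real.rpow_one _).symm
      _ ≤ (D : ℝ) ^ (1 + γ) := Real.rpow_le_rpow_of_exponent_le (by linarith) (by linarith)
  have hcl : (Cl d).card = d.totient := card_Cl d (by omega)
  have hX₁ : X₁ ≤ (Cl d).card := by
    rw [hcl]
    exact ((le_max_left _ _).trans (le_max_left _ _)).trans hφN
  have hm : m ≤ (Cl d).card := by
    rw [hcl]
    exact ((le_max_right _ _).trans (le_max_left _ _)).trans hφN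
  have hφ3 : 3 ≤ d.totient := (le_max_right _ _).trans hφN
  have hdr : (7 : ℝ) ≤ d := by exact_mod_cast hd7
  have hφr : (3 : ℝ) ≤ d.totient := by exact_mod_cast hφ3
  have hLX : 0 < Real.log (d.totient : ℝ) := Real.log_pos (by linarith)
  have hW : 0 < Real.log (d * Y : ℝ) := Real.log_pos (by nlinarith)
  have hcd : ∀ X : ℝ, crit ε d Y X = Real.log X / Pool.Agent.Q145.RA.dens d Y / J (1 + ε) := by
    intro X
    unfold crit Pool.Agent.Q145.RA.dens
    field_simp
  have hratio : ∀ (s : Fin K → ℕ) (j k a : ℕ), ratio d Y s j k a =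
      whit (fun a s => (a + s * d).Prime) s j k a / (k * Pool.Agent.Q145.RA.dens d Y) := by
    intro s j k a
    unfold ratio
    rw [whit_eq]
    rfl
  have hClasses : ∀ a, a ∈ Classes d → a ∈ Cl d := fun a ha => by
    unfold Classes at ha
    unfold Cl
    rw [mem_filter] at ha ⊢
    exact ha
  have hClasses' : ∀ a, a ∈ Cl d → a ∈ Classes d := fun a ha => by
    unfold Cl at ha
    unfold Classes
    rw [mem_filter] at ha ⊢
    exact ha
  constructor
  · have h5 := h1 (Pool.Agent.Q145.RA.dens d Y) (Icc 1 Y) (Cl d) (fun a s => (a + s * d).Prime) hδ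
      (Reg.mono hδ.le (min_le_left _ _) hreg) hX₁ K
    rw [Nat.card_Icc, Nat.add_sub_cancel, hcl] at h5
    refine le_trans ?_ h5
    apply Nat.cast_le.2
    apply card_le_card
    intro s hs
    unfold Seqs at hs
    rw [mem_filter] at hs ⊢
    refine ⟨hs.1, fun hP => hs.2 fun j k hk hjk hkk a ha => ?_⟩
    have hk0 : (0 : ℝ) < k := by exact_mod_cast hk
    have h6 := hP j k hjk (by
      rw [hcd, ← mul_div_assoc, div_le_iff₀ hJ, ← mul_div_assoc, div_le_iff₀ hδ] at hkk
      refine hkk.trans (le_of_eq ?_)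
      show (k : ℝ) * J (1 + ε) * Pool.Agent.Q145.RA.dens d Y = J (1 + ε) * (k * Pool.Agent.Q145.RA.dens d Y)
      ring) a (hClasses a ha)
    rw [hratio, div_sub_one (by positivity), abs_div, abs_of_pos (show 0 < (k : ℝ) * Pool.Agent.Q145.RA.dens d Y by positivity),
      div_le_iff₀ (by positivity)]
    exact h6
  · intro hK hK'
    rw [hcd] at hK hK'
    have hcr : 0 < Real.log (d.totient : ℝ) / Pool.Agent.Q145.RA.dens d Y / J (1 + ε) := by positivity
    have hK0 : 0 < K := by
      by_contra h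
      have h0 : K = 0 := by omega
      rw [h0, Nat.cast_zero] at hK
      have : 0 < γ * (Real.log (d.totient : ℝ) / Pool.Agent.Q145.RA.dens d Y / J (1 + ε)) := by positivity
      linarith
    have hkap : kap (Pool.Agent.Q145.RA.dens d Y) (Cl d).card K = K * Pool.Agent.Q145.RA.dens d Y / Real.log d.totient := by
      unfold kap
      rw [hcl]
    have hk1 : γ ≤ kap (Pool.Agent.Q145.RA.dens d Y) (Cl d).card K := by
      rw [hkap, le_div_iff₀ hLX]
      have e1 : γ * (Real.log (d.totient : ℝ) / Pool.Agent.Q145.RA.dens d Y) ≤ K := by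
        refine le_trans ?_ hK
        apply mul_le_mul_of_nonneg_left _ hγ.le
        rw [le_div_iff₀ hJ]
        have : 0 < Real.log (d.totient : ℝ) / Pool.Agent.Q145.RA.dens d Y := by positivity
        nlinarith
      rw [← mul_div_assoc, div_le_iff₀ hδ] at e1
      exact e1
    have hk2 : kap (Pool.Agent.Q145.RA.dens d Y) (Cl d).card K * J (1 + ε) ≤ 1 - γ := by
      rw [hkap, div_mul_eq_mul_div, div_le_iff₀ hLX]
      have e1 : (1 - γ) * (Real.log (d.totient : ℝ) / Pool.Agent.Q145.RA.dens d Y / J (1 + ε)) *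
          (Pool.Agent.Q145.RA.dens d Y * J (1 + ε)) = (1 - γ) * Real.log (d.totient : ℝ) := by
        field_simp
      rw [← e1, mul_assoc]
      exact mul_le_mul_of_nonneg_right hK' (by positivity)
    have hk3 : kap (Pool.Agent.Q145.RA.dens d Y) (Cl d).card K ≤ 1 / J (1 + ε) := by
      rw [le_div_iff₀ hJ]
      linarith
    have h5 := h2 (Pool.Agent.Q145.RA.dens d Y) (Icc 1 Y) (Cl d) (fun a s => (a + s * d).Prime) hδ
      (Reg.mono hδ.le (min_le_right _ _) hreg) hm K hk1 hk3
    rw [Nat.card_Icc, Nat.add_sub_cancel] at h5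
    refine le_trans ?_ h5
    apply Nat.cast_le.2
    apply card_le_card
    intro s hs
    unfold Seqs at hs
    rw [mem_filter] at hs ⊢
    refine ⟨hs.1, fun hP => hs.2 ?_⟩
    have h6 := (hP.1 (1 + ε) (by linarith)).2 hk2
    have hcl0 : (0 : ℝ) < (Cl d).card := by
      rw [hcl]
      linarith
    have h7 : (0 : ℝ) < NP (fun a s => (a + s * d).Prime) (Pool.Agent.Q145.RA.dens d Y) (Cl d) s (1 + ε) :=
      (Real.rpow_pos_of_pos hcl0 _).trans_le h6
    have h8 : 0 < NP (fun a s => (a + s * d).Prime) (Pool.Agent.Q145.RA.dens d Y) (Cl d) s (1 + ε) := by exact_mod_cast h7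
    obtain ⟨a, ha⟩ := card_pos.1 h8
    rw [mem_filter] at ha
    refine ⟨a, hClasses' a ha.1, ?_⟩
    have hK0r : (0 : ℝ) < K := by exact_mod_cast hK0
    rw [hratio, whit_full, le_div_iff₀ (by positivity)]
    exact ha.2

end Pool.Agent.Results.MP_9cfc0a_nt.SparseSamplesOfClasses
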